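import Pool.Agent.Y401.HC.Main

/-!
# Crossing numbers of hypercubes and of their subgraphs in any number of planes

For every `t ≥ 1` and every subgraph `G` of the `k`-dimensional hypercube with average degree `e`,
all drawings of `G` in `t` planes together have at least
`t * 2 ^ k * (2 ^ (e / t - 16) - k ^ 2) / 4` crossings, with the same absolute constants for all
numbers `t` of planes.  For `G` the hypercube and `t = 2` this answers the question.
-/

set_option autoImplicit false

namespace Pool.Agent.Results.MP_e9773e_co.MultiplanarUniform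

open Pool.Agent.Helper770.Crossing Pool.Agent.Y401.HC

theorem result :
    -- every subgraph `G` of the hypercube, every number `t` of planes
    (∀ (t k : ℕ) (G : SimpleGraph (Fin k → Bool)), 1 ≤ t → 1 ≤ k → G ≤ hypercube k →
      (t : ℝ) * 2 ^ k *
          ((2 : ℝ) ^ (2 * (G.edgeSet.ncard : ℝ) / 2 ^ k / t - 16) - (k : ℝ) ^ 2) ≤
        4 * (multiplanarCrossingNumber t G : ℝ)) ∧
    -- the hypercube in `t` planes
    (∀ t k : ℕ, 1 ≤ t → 1 ≤ k → (2 : ℝ) ^ 17 * (k : ℝ) ^ 2 ≤ (2 : ℝ) ^ ((k : ℝ) / t) →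
      (t : ℝ) * (2 : ℝ) ^ ((1 + 1 / (t : ℝ)) * k) / 2 ^ 19 ≤
        (multiplanarCrossingNumber t (hypercube k) : ℝ)) ∧
    -- the hypercube in two planes
    (∀ k : ℕ, 64 ≤ k →
      (2 : ℝ) ^ (3 * (k : ℝ) / 2) / 2 ^ 18 ≤ (biplanarCrossingNumber (hypercube k) : ℝ)) :=
  ⟨fun t k G ht hk hG => part1 t k ht hk G hG, fun t k ht hk h => part2 t k ht hk h,
    fun k hk => part3 k hk⟩

end Pool.Agent.Results.MP_e9773e_co.MultiplanarUniform
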